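import Pool.Agent.V1121.OC.Crit

set_option autoImplicit false
set_option linter.unusedSimpArgs false
set_option linter.unusedSectionVars false

/-!
Faithful circuit covers of Cayley graphs with translation invariant weights: the pieces.
-/

namespace Pool.Agent.V1121.FC

open Finset Pool.Agent.TH505.OCDC Subgroup

section General

variable {V : Type} [Fintype V] {G : SimpleGraph V}

/-- an even symmetric relation inside the graph decomposes into circuits -/
lemma even_decomp (R : V → V → Prop) (hadj : ∀ u v, R u v → G.Adj u v)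
    (hsymm : ∀ u v, R u v → R v u) (heven : ∀ v, Even (∑ w, ind (R v w))) :
    ∃ C : List (Σ v : V, G.Walk v v), (∀ c ∈ C, c.2.IsCycle) ∧
      ∀ u v, tot C u v + tot C v u = ind (R u v) := by
  obtain ⟨g, hg1, hg2, hg3, hg4⟩ := orient G _ R rfl hadj hsymm heven
  obtain ⟨C, hC, hC2⟩ := flow_decomp (G := G) g hg1 (fun u v => by
      by_cases h : R u v
      · rcases hg2 u v h with h | h
        · right; left; exact h
        · right; right; exact h
      · left; exact hg3 u v h) (fun u v h => by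
      by_contra hc
      exact h (hg3 u v (fun h' => hc (hadj u v h')))) hg4
  refine ⟨C, hC, fun u v => ?_⟩
  rw [hC2, hC2, hg1 u v]
  by_cases h : R u v
  · rw [ind_pos h]
    rcases hg2 u v h with h | h
    · rw [h, ind_pos rfl, ind_neg (by norm_num)]
    · rw [h, ind_neg (by norm_num), ind_pos (by norm_num)]
  · rw [ind_neg h, hg3 u v h, ind_neg (by norm_num), ind_neg (by norm_num)]

/-- a finite family of even symmetric relations -/
lemma family_decomp {K : Type} [Fintype K] (R : K → V → V → Prop)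
    (hadj : ∀ k u v, R k u v → G.Adj u v)
    (hsymm : ∀ k u v, R k u v → R k v u) (heven : ∀ k v, Even (∑ w, ind (R k v w))) :
    ∃ C : List (Σ v : V, G.Walk v v), (∀ c ∈ C, c.2.IsCycle) ∧
      ∀ u v, tot C u v + tot C v u = ∑ k, ind (R k u v) := by
  classical
  have main : ∀ T : Finset K, ∃ C : List (Σ v : V, G.Walk v v), (∀ c ∈ C, c.2.IsCycle) ∧
      ∀ u v, tot C u v + tot C v u = ∑ k ∈ T, ind (R k u v) := by
    intro T
    induction T using Finset.induction_on with
    | empty => exact ⟨[], by simp, fun u v => by simp [tot_nil]⟩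
    | insert k T hk ih =>
      obtain ⟨C, hC, hC2⟩ := ih
      obtain ⟨D, hD, hD2⟩ := even_decomp (R k) (hadj k) (hsymm k) (heven k)
      refine ⟨D ++ C, ?_, ?_⟩
      · intro c hc
        rcases List.mem_append.mp hc with hc | hc
        · exact hD c hc
        · exact hC c hc
      · intro u v
        rw [tot_append, tot_append, Finset.sum_insert hk, ← hC2, ← hD2]
        ring
  exact main univ

end General

variable {Γ : Type} [Group Γ] [Fintype Γ]

/-- the weight `f (u⁻¹ v)` of the edges has a faithful circuit cover -/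
def Cov (G : SimpleGraph Γ) (f : Γ → ℕ) : Prop :=
  ∃ C : List (Σ v : Γ, G.Walk v v), (∀ c ∈ C, c.2.IsCycle) ∧
    ∀ u v, G.Adj u v → tot C u v + tot C v u = f (u⁻¹ * v)

lemma Cov.zero (G : SimpleGraph Γ) : Cov G (fun _ => 0) :=
  ⟨[], by simp, fun u v _ => by simp [tot_nil]⟩

lemma Cov.add {G : SimpleGraph Γ} {f g : Γ → ℕ} (hf : Cov G f) (hg : Cov G g) :
    Cov G (fun x => f x + g x) := by
  obtain ⟨C, hC, hC2⟩ := hf
  obtain ⟨D, hD, hD2⟩ := hg
  refine ⟨C ++ D, ?_, ?_⟩
  · intro c hc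
    rcases List.mem_append.mp hc with hc | hc
    · exact hC c hc
    · exact hD c hc
  · intro u v h
    show _ = f (u⁻¹ * v) + g (u⁻¹ * v)
    rw [tot_append, tot_append, ← hC2 u v h, ← hD2 u v h]
    ring

lemma Cov.congr {G : SimpleGraph Γ} {f g : Γ → ℕ} (hf : Cov G f) (h : ∀ x, g x = f x) :
    Cov G g := by
  have : g = f := funext h
  rw [this]; exact hf

lemma sum_shift (v : Γ) (F : Γ → ℕ) : ∑ w, F (v⁻¹ * w) = ∑ g, F g :=
  Fintype.sum_equiv (Equiv.mulLeft v⁻¹) _ _ (fun _ => rfl)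

lemma sum_ind_eq (a : Γ) (P : Prop) : ∑ g : Γ, ind (g = a ∧ P) = ind P := by
  rw [Finset.sum_eq_single a]
  · by_cases h : P
    · rw [ind_pos h, ind_pos ⟨rfl, h⟩]
    · rw [ind_neg h, ind_neg (fun h' => h h'.2)]
  · intro b _ hb
    exact ind_neg (fun h => hb h.1)
  · intro h; exact absurd (mem_univ _) h

lemma ind_or {P Q : Prop} (h : ¬ (P ∧ Q)) : ind (P ∨ Q) = ind P + ind Q := by
  by_cases hP : P
  · by_cases hQ : Q
    · exact absurd ⟨hP, hQ⟩ h
    · rw [ind_pos (Or.inl hP), ind_pos hP, ind_neg hQ]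
  · by_cases hQ : Q
    · rw [ind_pos (Or.inr hQ), ind_neg hP, ind_pos hQ]
    · rw [ind_neg (by tauto), ind_neg hP, ind_neg hQ]

lemma ind_congr {P Q : Prop} (h : P ↔ Q) : ind P = ind Q := by
  rw [propext h]

/-- two distinct elements forming a symmetric set -/
lemma cov_two {G : SimpleGraph Γ} {a b : Γ} (hab : a ≠ b)
    (hadj : ∀ u, G.Adj u (u * a) ∧ G.Adj u (u * b))
    (hinv : (a⁻¹ = b ∧ b⁻¹ = a) ∨ (a⁻¹ = a ∧ b⁻¹ = b)) :
    Cov G (fun g => ind (g = a) + ind (g = b)) := by
  obtain ⟨C, hC, hC2⟩ := even_decomp (G := G) (fun u v => u⁻¹ * v = a ∨ u⁻¹ * v = b) (by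
      rintro u v (h | h)
      · have := (hadj u).1
        rwa [← h, mul_inv_cancel_left] at this
      · have := (hadj u).2
        rwa [← h, mul_inv_cancel_left] at this) (by
      intro u v h
      have e : v⁻¹ * u = (u⁻¹ * v)⁻¹ := by group
      rw [e]
      rcases hinv with ⟨h1, h2⟩ | ⟨h1, h2⟩
      · rcases h with h | h
        · right; rw [h, h1]
        · left; rw [h, h2]
      · rcases h with h | h
        · left; rw [h, h1]
        · right; rw [h, h2]) (by
      intro v
      rw [sum_shift v (fun g => ind (g = a ∨ g = b))]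
      have h1 : ∀ g, ind (g = a ∨ g = b) = ind (g = a ∧ True) + ind (g = b ∧ True) := by
        intro g
        rw [ind_or (by rintro ⟨h1, h2⟩; exact hab (h1.symm.trans h2))]
        simp only [and_true]
      rw [Finset.sum_congr rfl (fun g _ => h1 g), Finset.sum_add_distrib, sum_ind_eq, sum_ind_eq,
        ind_pos trivial]
      exact ⟨1, rfl⟩)
  refine ⟨C, hC, fun u v _ => ?_⟩
  rw [hC2, ind_or (by rintro ⟨h1, h2⟩; exact hab (h1.symm.trans h2))]

/-- the relation of the third piece -/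
def rel {K : Type} (t x : Γ) (α : Γ → K) (k : K) (u v : Γ) : Prop :=
  (u⁻¹ * v = t ∧ (α u = k ∨ α (u * x⁻¹) = k)) ∨ (u⁻¹ * v = x ∧ α u = k) ∨
    (u⁻¹ * v = x⁻¹ ∧ α (u * x⁻¹) = k)

lemma ind_rel {K : Type} {t x : Γ} (htx : t ≠ x) (htx' : t ≠ x⁻¹) (hx : x ≠ x⁻¹) (α : Γ → K)
    (hα : ∀ v, α v ≠ α (v * x⁻¹)) (k : K) (u v : Γ) :
    ind (rel t x α k u v) = ind (u⁻¹ * v = t ∧ α u = k) + ind (u⁻¹ * v = t ∧ α (u * x⁻¹) = k) +
      ind (u⁻¹ * v = x ∧ α u = k) + ind (u⁻¹ * v = x⁻¹ ∧ α (u * x⁻¹) = k) := by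
  have h0 : ¬ (α u = k ∧ α (u * x⁻¹) = k) := fun h => hα u (h.1.trans h.2.symm)
  have e : rel t x α k u v ↔ (u⁻¹ * v = t ∧ α u = k) ∨ ((u⁻¹ * v = t ∧ α (u * x⁻¹) = k) ∨
      ((u⁻¹ * v = x ∧ α u = k) ∨ (u⁻¹ * v = x⁻¹ ∧ α (u * x⁻¹) = k))) := by
    unfold rel; tauto
  rw [ind_congr e, ind_or, ind_or, ind_or]
  · ring
  · rintro ⟨h1, h2⟩; exact hx (h1.1.symm.trans h2.1)
  · rintro ⟨h1, h2 | h2⟩
    · exact htx (h1.1.symm.trans h2.1)
    · exact htx' (h1.1.symm.trans h2.1)
  · rintro ⟨h1, h2 | h2 | h2⟩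
    · exact h0 ⟨h1.2, h2.2⟩
    · exact htx (h1.1.symm.trans h2.1)
    · exact htx' (h1.1.symm.trans h2.1)

/-- an involution twice and another generator once -/
lemma cov_three {K : Type} [Fintype K] {G : SimpleGraph Γ} {t x : Γ} (ht : t⁻¹ = t)
    (hx : x ≠ x⁻¹) (hadj : ∀ u, G.Adj u (u * t) ∧ G.Adj u (u * x)) (α : Γ → K)
    (hα : ∀ v, α v ≠ α (v * x⁻¹))
    (hα2 : ∀ v, (α (v * t) = α v ∧ α (v * t * x⁻¹) = α (v * x⁻¹)) ∨
      (α (v * t) = α (v * x⁻¹) ∧ α (v * t * x⁻¹) = α v)) :
    Cov G (fun g => 2 * ind (g = t) + (ind (g = x) + ind (g = x⁻¹))) := by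
  have htx : t ≠ x := by
    rintro rfl; exact hx ht.symm
  have htx' : t ≠ x⁻¹ := by
    rintro h
    apply hx
    rw [← h, ← ht, h, inv_inv]
  have hir := ind_rel htx htx' hx α hα
  obtain ⟨C, hC, hC2⟩ := family_decomp (G := G) (fun k : K => rel t x α k) (by
      rintro k u v (⟨h, -⟩ | ⟨h, -⟩ | ⟨h, -⟩)
      · have := (hadj u).1
        rwa [← h, mul_inv_cancel_left] at this
      · have := (hadj u).2
        rwa [← h, mul_inv_cancel_left] at this
      · have := (hadj v).2
        have e : v * x = u := by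
          have : x = (u⁻¹ * v)⁻¹ := by rw [h, inv_inv]
          rw [this]; group
        rw [e] at this
        exact this.symm) (by
      rintro k u v (⟨h, h'⟩ | ⟨h, h'⟩ | ⟨h, h'⟩)
      · have e : v = u * t := by rw [← h]; group
        left
        refine ⟨by rw [e, mul_inv_rev, mul_assoc, inv_mul_cancel, mul_one, ht], ?_⟩
        rw [e]
        rcases hα2 u with ⟨h1, h2⟩ | ⟨h1, h2⟩
        · rw [h1, h2]; exact h'
        · rw [h1, h2]; exact h'.symm
      · have e : v = u * x := by rw [← h]; group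
        right; right
        refine ⟨by rw [e]; group, ?_⟩
        rw [e, mul_inv_cancel_right]; exact h'
      · have e : v = u * x⁻¹ := by rw [← h]; group
        right; left
        refine ⟨by rw [e]; group, ?_⟩
        rw [e]; exact h') (by
      intro k v
      have h1 := sum_shift v (fun g => ind (g = t ∧ α v = k) + ind (g = t ∧ α (v * x⁻¹) = k) +
            ind (g = x ∧ α v = k) + ind (g = x⁻¹ ∧ α (v * x⁻¹) = k))
      rw [Finset.sum_congr rfl (fun w _ => hir k v w), h1]
      simp only [Finset.sum_add_distrib, sum_ind_eq]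
      exact ⟨ind (α v = k) + ind (α (v * x⁻¹) = k), by ring⟩)
  refine ⟨C, hC, fun u v _ => ?_⟩
  rw [hC2, Finset.sum_congr rfl (fun k _ => hir k u v)]
  simp only [Finset.sum_add_distrib]
  have key : ∀ (P : Prop) (a : K), ∑ k, ind (P ∧ a = k) = ind P := by
    intro P a
    rw [Finset.sum_eq_single a]
    · by_cases h : P
      · rw [ind_pos h, ind_pos ⟨h, rfl⟩]
      · rw [ind_neg h, ind_neg (fun h' => h h'.1)]
    · intro b _ hb
      exact ind_neg (fun h => hb h.2.symm)
    · intro h; exact absurd (mem_univ _) h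
  rw [key, key, key, key]
  ring

end Pool.Agent.V1121.FC
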