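import Pool.Agent.V1121.FC.Final

set_option autoImplicit false
set_option linter.unusedSimpArgs false
set_option linter.unusedSectionVars false

/-!
The cone, the lattice and the integer cone of circuits of a Cayley graph.
-/

namespace Pool.Agent.V1121.FC

open Finset Pool.Agent.TH505.OCDC

section General

variable {V : Type} [Fintype V] {G : SimpleGraph V}

/-- incidence vectors of circuits -/
def IsVec (G : SimpleGraph V) (x : G.edgeSet → ℤ) : Prop :=
  ∃ v : V, ∃ c : G.Walk v v, c.IsCycle ∧ ∀ e : G.edgeSet,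
    ((e : Sym2 V) ∈ c.edges → x e = 1) ∧ ((e : Sym2 V) ∉ c.edges → x e = 0)

open scoped Classical in
/-- total weight at a vertex -/
noncomputable def D (x : G.edgeSet → ℤ) (v : V) : ℤ :=
  ∑ z : V, if h : G.Adj v z then x ⟨s(v, z), h⟩ else 0

lemma D_zero (v : V) : D (0 : G.edgeSet → ℤ) v = 0 := by
  classical
  unfold D
  simp

lemma D_add (x y : G.edgeSet → ℤ) (v : V) : D (x + y) v = D x v + D y v := by
  classical
  unfold D
  rw [← Finset.sum_add_distrib]
  apply Finset.sum_congr rfl
  intro z _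
  split_ifs with h
  · rfl
  · rfl

lemma D_neg (x : G.edgeSet → ℤ) (v : V) : D (-x) v = - D x v := by
  classical
  unfold D
  rw [← Finset.sum_neg_distrib]
  apply Finset.sum_congr rfl
  intro z _
  split_ifs with h
  · rfl
  · rfl

lemma D_vec {x : G.edgeSet → ℤ} (hx : IsVec G x) (v : V) :
    ∃ k : ℕ, D x v = 2 * k ∧ ∀ y, ∀ h : G.Adj v y, x ⟨s(v, y), h⟩ ≤ k := by
  classical
  obtain ⟨a, c, hc, hx⟩ := hx
  have hone : ∀ z, (if h : G.Adj v z then x ⟨s(v, z), h⟩ else 0) = ((dc c v z + dc c z v : ℕ) : ℤ) := by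
    intro z
    split_ifs with h
    · have h1 := dc_add_le_count c h.ne
      have h2 : (c.edges).count s(v, z) ≤ 1 :=
        List.nodup_iff_count_le_one.mp hc.isCircuit.isTrail.edges_nodup _
      by_cases he : s(v, z) ∈ c.edges
      · have h3 : 0 < (c.edges).count s(v, z) := List.count_pos_iff.mpr he
        rw [(hx ⟨s(v, z), h⟩).1 he]
        omega
      · have h3 : (c.edges).count s(v, z) = 0 := List.count_eq_zero.mpr he
        rw [(hx ⟨s(v, z), h⟩).2 he]
        omega
    · have h1 : dc c v z = 0 := by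
        by_contra h0
        exact h (dc_adj c (Nat.pos_of_ne_zero h0))
      have h2 : dc c z v = 0 := by
        by_contra h0
        exact h (dc_adj c (Nat.pos_of_ne_zero h0)).symm
      rw [h1, h2]; rfl
  refine ⟨∑ z, dc c v z, ?_, ?_⟩
  · unfold D
    rw [Finset.sum_congr rfl (fun z _ => hone z), ← Nat.cast_sum, Finset.sum_add_distrib,
      ← dc_closed c v]
    push_cast
    ring
  · intro y h
    have h1 := hone y
    rw [dif_pos h] at h1
    by_contra hlt
    push Not at hlt
    have h2 : ∑ z, dc c v z = 0 := by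
      have h3 : x ⟨s(v, y), h⟩ ≤ 1 := by
        by_cases he : s(v, y) ∈ c.edges
        · rw [(hx ⟨s(v, y), h⟩).1 he]
        · rw [(hx ⟨s(v, y), h⟩).2 he]; norm_num
      omega
    have h3 := h2
    rw [dc_closed c v] at h3
    have h4 : dc c v y = 0 := (Finset.sum_eq_zero_iff.mp h2) y (mem_univ y)
    have h5 : dc c y v = 0 := (Finset.sum_eq_zero_iff.mp h3) y (mem_univ y)
    rw [h1, h2, h4, h5] at hlt
    norm_num at hlt

/-- the lattice gives the parity condition -/
lemma even_of_lattice {p : G.edgeSet → ℤ} (hp : p ∈ AddSubgroup.closure {x | IsVec G x}) (v : V) :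
    Even (D p v) := by
  induction hp using AddSubgroup.closure_induction with
  | mem x hx =>
    obtain ⟨k, hk, -⟩ := D_vec hx v
    rw [hk]; exact even_two_mul _
  | zero => rw [D_zero]; exact Even.zero
  | add x y _ _ hx hy => rw [D_add]; exact hx.add hy
  | neg x _ hx => rw [D_neg]; exact hx.neg

/-- the cone gives the admissibility condition at the vertices -/
lemma le_of_cone {p : G.edgeSet → ℤ} (s : Finset (G.edgeSet → ℤ)) (w : (G.edgeSet → ℤ) → ℝ)
    (hs : ∀ x ∈ s, IsVec G x ∧ 0 ≤ w x) (hp : ∀ e, (p e : ℝ) = ∑ x ∈ s, w x * (x e : ℝ))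
    {v y : V} (h : G.Adj v y) : 2 * p ⟨s(v, y), h⟩ ≤ D p v := by
  classical
  have h1 : ((D p v : ℤ) : ℝ) = ∑ x ∈ s, w x * ((D x v : ℤ) : ℝ) := by
    unfold D
    push_cast
    simp only [Finset.mul_sum]
    rw [Finset.sum_comm]
    apply Finset.sum_congr rfl
    intro z _
    by_cases hz : G.Adj v z
    · simp only [dif_pos hz]; exact hp _
    · simp only [dif_neg hz, Int.cast_zero, mul_zero, Finset.sum_const_zero]
  have h2 : ((2 * p ⟨s(v, y), h⟩ : ℤ) : ℝ) ≤ ((D p v : ℤ) : ℝ) := by
    rw [h1]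
    push_cast
    rw [hp, Finset.mul_sum]
    apply Finset.sum_le_sum
    intro x hx
    obtain ⟨k, hk, hk2⟩ := D_vec (hs x hx).1 v
    have h3 := hk2 y h
    rw [hk]
    push_cast
    have h4 : ((x ⟨s(v, y), h⟩ : ℤ) : ℝ) ≤ (k : ℝ) := by exact_mod_cast h3
    nlinarith [(hs x hx).2]
  exact_mod_cast h2

open scoped Classical in
/-- the trivial inclusions -/
lemma cone_of_intcone {p : G.edgeSet → ℤ} (hp : p ∈ AddSubmonoid.closure {x | IsVec G x}) :
    (∃ (s : Finset (G.edgeSet → ℤ)) (w : (G.edgeSet → ℤ) → ℝ),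
      (∀ x ∈ s, IsVec G x ∧ 0 ≤ w x) ∧ ∀ e, (p e : ℝ) = ∑ x ∈ s, w x * (x e : ℝ)) ∧
    p ∈ AddSubgroup.closure {x | IsVec G x} := by
  constructor
  · induction hp using AddSubmonoid.closure_induction with
    | mem x hx =>
      refine ⟨{x}, fun _ => 1, ?_, ?_⟩
      · intro y hy
        rw [Finset.mem_singleton] at hy
        subst hy
        exact ⟨hx, zero_le_one⟩
      · intro e; simp
    | zero => exact ⟨∅, fun _ => 0, by simp, fun e => by simp⟩
    | add x y _ _ hx hy =>
      obtain ⟨s, w, hs, hw⟩ := hx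
      obtain ⟨t, u, ht, hu⟩ := hy
      refine ⟨s ∪ t, fun z => (if z ∈ s then w z else 0) + (if z ∈ t then u z else 0), ?_, ?_⟩
      · intro z hz
        refine ⟨?_, ?_⟩
        · rcases Finset.mem_union.mp hz with h | h
          · exact (hs z h).1
          · exact (ht z h).1
        · have h1 : (0 : ℝ) ≤ if z ∈ s then w z else 0 := by
            split_ifs with h
            · exact (hs z h).2
            · exact le_refl _
          have h2 : (0 : ℝ) ≤ if z ∈ t then u z else 0 := by
            split_ifs with h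
            · exact (ht z h).2
            · exact le_refl _
          exact add_nonneg h1 h2
      · intro e
        rw [Pi.add_apply]
        push_cast
        rw [hw e, hu e]
        simp only [add_mul, Finset.sum_add_distrib, ite_mul, zero_mul]
        congr 1
        · rw [Finset.sum_ite_mem, Finset.union_inter_cancel_left]
        · rw [Finset.sum_ite_mem, Finset.union_inter_cancel_right]
  · have h1 : AddSubmonoid.closure {x | IsVec G x} ≤
        (AddSubgroup.closure {x | IsVec G x}).toAddSubmonoid :=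
      AddSubmonoid.closure_le.mpr AddSubgroup.subset_closure
    exact h1 hp

open scoped Classical in
/-- a list of circuits gives an element of the integer cone -/
lemma intcone_of_list {p : G.edgeSet → ℤ} (C : List (Σ v : V, G.Walk v v))
    (hC : ∀ c ∈ C, c.2.IsCycle)
    (hp : ∀ e : G.edgeSet, p e = C.countP (fun c => decide ((e : Sym2 V) ∈ c.2.edges))) :
    p ∈ AddSubmonoid.closure {x | IsVec G x} := by
  have h1 : p = (C.map (fun c => fun e : G.edgeSet =>
      if (e : Sym2 V) ∈ c.2.edges then (1 : ℤ) else 0)).sum := by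
    funext e
    rw [hp e]
    clear hp hC
    induction C with
    | nil => simp
    | cons c C ih =>
      rw [List.countP_cons, List.map_cons, List.sum_cons, Pi.add_apply, ← ih]
      push_cast
      by_cases h : (e : Sym2 V) ∈ c.2.edges
      · simp [h, add_comm]
      · simp [h]
  rw [h1]
  apply AddSubmonoid.list_sum_mem
  intro x hx
  obtain ⟨c, hc, rfl⟩ := List.mem_map.mp hx
  apply AddSubmonoid.subset_closure
  refine ⟨c.1, c.2, hC c hc, fun e => ⟨fun h => ?_, fun h => ?_⟩⟩
  · simp [h]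
  · simp [h]

end General

variable {Γ : Type} [Group Γ] [Fintype Γ] {G : SimpleGraph Γ}

open scoped Classical in
/-- the cone formulation -/
theorem final_cone (p : G.edgeSet → ℤ) (hp : ∀ e, 0 ≤ p e)
    (hG : ∀ g x y : Γ, G.Adj x y → G.Adj (g * x) (g * y))
    (hinv : ∀ g x y : Γ, ∀ h : G.Adj x y, p ⟨s(g * x, g * y), hG g x y h⟩ = p ⟨s(x, y), h⟩)
    (hcone : ∀ v y : Γ, ∀ h : G.Adj v y, 2 * p ⟨s(v, y), h⟩ ≤ D p v)
    (heven : ∀ v, Even (D p v)) :
    p ∈ AddSubmonoid.closure {x | IsVec G x} := by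
  set w : Sym2 Γ → ℕ := fun e => if h : e ∈ G.edgeSet then (p ⟨e, h⟩).toNat else 0 with hwdef
  have hwp : ∀ e : G.edgeSet, ((w e : ℕ) : ℤ) = p e := by
    intro e
    simp only [hwdef]
    rw [dif_pos e.2]
    exact Int.toNat_of_nonneg (hp _)
  have hsum : ∀ v, ((∑ z ∈ univ.filter (fun z => G.Adj v z), w s(v, z) : ℕ) : ℤ) = D p v := by
    intro v
    unfold D
    rw [Finset.sum_filter]
    push_cast
    apply Finset.sum_congr rfl
    intro z _
    by_cases h : G.Adj v z
    · rw [if_pos h, dif_pos h]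
      exact hwp ⟨s(v, z), h⟩
    · rw [if_neg h, dif_neg h]
  obtain ⟨C, hC, hC2⟩ := final_cov w hG (by
      intro g x y h
      have h1 := hwp ⟨s(g * x, g * y), hG g x y h⟩
      have h2 := hwp ⟨s(x, y), h⟩
      rw [hinv g x y h] at h1
      have h3 := h1.trans h2.symm
      exact_mod_cast h3) (by
      intro x y h
      have h1 := hcone x y h
      rw [← hsum x, ← hwp ⟨s(x, y), h⟩] at h1
      exact_mod_cast h1) (by
      intro x
      have := heven x
      rw [← hsum x] at this
      exact_mod_cast this)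
  refine intcone_of_list C hC (fun e => ?_)
  rw [hC2 e.1 e.2, hwp e]

open scoped Classical in
/-- even weights: oriented covers -/
theorem final_even (p : G.edgeSet → ℤ) (hp : ∀ e, 0 ≤ p e)
    (hG : ∀ g x y : Γ, G.Adj x y → G.Adj (g * x) (g * y))
    (hinv : ∀ g x y : Γ, ∀ h : G.Adj x y, p ⟨s(g * x, g * y), hG g x y h⟩ = p ⟨s(x, y), h⟩)
    (hcone : ∀ v y : Γ, ∀ h : G.Adj v y, 2 * p ⟨s(v, y), h⟩ ≤ D p v)
    (heven : ∀ e, Even (p e)) :
    ∃ C : List (Σ v : Γ, G.Walk v v), (∀ c ∈ C, c.2.IsCycle) ∧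
      ∀ u v : Γ, ∀ h : G.Adj u v,
        2 * (((C.map (fun c => c.2.darts.countP (fun d => decide (d.toProd = (u, v))))).sum : ℕ) : ℤ)
          = p ⟨s(u, v), h⟩ := by
  set w : Sym2 Γ → ℕ := fun e => if h : e ∈ G.edgeSet then (p ⟨e, h⟩ / 2).toNat else 0 with hwdef
  have hwp : ∀ e : G.edgeSet, 2 * ((w e : ℕ) : ℤ) = p e := by
    intro e
    simp only [hwdef]
    rw [dif_pos e.2]
    have h1 : 0 ≤ p e / 2 := Int.ediv_nonneg (hp _) (by norm_num)
    rw [Int.toNat_of_nonneg h1]
    exact Int.mul_ediv_cancel' (heven e).two_dvd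
  have hsum : ∀ v, 2 * ((∑ z ∈ univ.filter (fun z => G.Adj v z), w s(v, z) : ℕ) : ℤ) = D p v := by
    intro v
    unfold D
    rw [Finset.sum_filter]
    push_cast
    rw [Finset.mul_sum]
    apply Finset.sum_congr rfl
    intro z _
    by_cases h : G.Adj v z
    · rw [if_pos h, dif_pos h]
      exact hwp ⟨s(v, z), h⟩
    · rw [if_neg h, dif_neg h, mul_zero]
  obtain ⟨C, hC, hC2⟩ := final_dcov w hG (by
      intro g x y h
      have h1 := hwp ⟨s(g * x, g * y), hG g x y h⟩
      have h2 := hwp ⟨s(x, y), h⟩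
      rw [hinv g x y h] at h1
      have h3 := h1.trans h2.symm
      simp only at h3
      omega) (by
      intro x y h
      have h1 := hcone x y h
      have h2 := hwp ⟨s(x, y), h⟩
      have h3 := hsum x
      simp only at h2
      omega)
  refine ⟨C, hC, fun u v h => ?_⟩
  rw [hC2 u v h]
  exact hwp ⟨s(u, v), h⟩

end Pool.Agent.V1121.FC
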