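import Pool.Agent.V1121.FC.Orient

set_option autoImplicit false
set_option linter.unusedSimpArgs false
set_option linter.unusedSectionVars false

/-!
Faithful circuit covers of Cayley graphs with translation invariant weights: edge formulation.
-/

namespace Pool.Agent.V1121.FC

open Finset Pool.Agent.TH505.OCDC Subgroup Pool.Agent.V1121.OC

section General

variable {V : Type} {G : SimpleGraph V}

open scoped Classical in
/-- number of circuits through an edge -/
lemma countP_eq (C : List (Σ v : V, G.Walk v v)) (hC : ∀ c ∈ C, c.2.IsCycle) {u v : V}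
    (huv : u ≠ v) : C.countP (fun c => decide (s(u, v) ∈ c.2.edges)) = tot C u v + tot C v u := by
  induction C with
  | nil => simp [tot_nil]
  | cons c C ih =>
    rw [List.countP_cons, tot_cons, tot_cons, ih (fun c hc => hC c (List.mem_cons_of_mem _ hc))]
    have h1 := dc_add_le_count c.2 huv
    have h2 : (c.2.edges).count s(u, v) ≤ 1 :=
      List.nodup_iff_count_le_one.mp (hC c List.mem_cons_self).isCircuit.isTrail.edges_nodup _
    by_cases h : s(u, v) ∈ c.2.edges
    · have h3 : 0 < (c.2.edges).count s(u, v) := List.count_pos_iff.mpr h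
      rw [if_pos (by simpa using h)]
      omega
    · have h3 : (c.2.edges).count s(u, v) = 0 := List.count_eq_zero.mpr h
      rw [if_neg (by simpa using h)]
      omega

end General

variable {Γ : Type} [Group Γ] [Fintype Γ] {G : SimpleGraph Γ}

open scoped Classical in
/-- the weight of the generators -/
noncomputable def gw (G : SimpleGraph Γ) (w : Sym2 Γ → ℕ) (g : Γ) : ℕ :=
  if G.Adj 1 g then w s(1, g) else 0

lemma gw_adj (hG : ∀ g x y : Γ, G.Adj x y → G.Adj (g * x) (g * y)) {w : Sym2 Γ → ℕ}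
    (hw : ∀ g x y : Γ, G.Adj x y → w s(g * x, g * y) = w s(x, y)) {u v : Γ} (h : G.Adj u v) :
    gw G w (u⁻¹ * v) = w s(u, v) := by
  have h1 := hG u⁻¹ u v h
  have h2 := hw u⁻¹ u v h
  rw [inv_mul_cancel] at h1 h2
  unfold gw
  rw [if_pos h1, h2]

lemma gw_one (w : Sym2 Γ → ℕ) : gw G w 1 = 0 := by
  unfold gw
  rw [if_neg (G.loopless.irrefl 1)]

lemma gw_inv (hG : ∀ g x y : Γ, G.Adj x y → G.Adj (g * x) (g * y)) {w : Sym2 Γ → ℕ}
    (hw : ∀ g x y : Γ, G.Adj x y → w s(g * x, g * y) = w s(x, y)) (g : Γ) :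
    gw G w g⁻¹ = gw G w g := by
  by_cases h : G.Adj 1 g
  · have h1 := gw_adj hG hw h
    have h2 := gw_adj hG hw h.symm
    rw [inv_one, one_mul] at h1
    rw [mul_one] at h2
    rw [h1, h2, Sym2.eq_swap]
  · have h' : ¬ G.Adj 1 g⁻¹ := by
      intro h'
      have := hG g 1 g⁻¹ h'
      rw [mul_one, mul_inv_cancel] at this
      exact h this.symm
    unfold gw
    rw [if_neg h, if_neg h']

lemma gw_pos (hG : ∀ g x y : Γ, G.Adj x y → G.Adj (g * x) (g * y)) {w : Sym2 Γ → ℕ} {g : Γ}
    (h : 0 < gw G w g) (u : Γ) : G.Adj u (u * g) := by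
  unfold gw at h
  by_cases hg : G.Adj 1 g
  · have := hG u 1 g hg
    rwa [mul_one] at this
  · rw [if_neg hg] at h
    exact absurd h (lt_irrefl 0)

open scoped Classical in
lemma gw_sum (w : Sym2 Γ → ℕ) :
    ∑ g, gw G w g = ∑ z ∈ univ.filter (fun z => G.Adj 1 z), w s(1, z) := by
  rw [Finset.sum_filter]
  rfl

open scoped Classical in
/-- the edge formulation, non-oriented -/
theorem final_cov (w : Sym2 Γ → ℕ) (hG : ∀ g x y : Γ, G.Adj x y → G.Adj (g * x) (g * y))
    (hw : ∀ g x y : Γ, G.Adj x y → w s(g * x, g * y) = w s(x, y))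
    (hadm : ∀ x y : Γ, G.Adj x y →
      2 * w s(x, y) ≤ ∑ z ∈ univ.filter (fun z => G.Adj x z), w s(x, z))
    (heul : ∀ x : Γ, Even (∑ z ∈ univ.filter (fun z => G.Adj x z), w s(x, z))) :
    ∃ C : List (Σ v : Γ, G.Walk v v), (∀ c ∈ C, c.2.IsCycle) ∧
      ∀ e ∈ G.edgeSet, C.countP (fun c => decide (e ∈ c.2.edges)) = w e := by
  obtain ⟨C, hC, hC2⟩ := cov_all G _ (gw G w) rfl (gw_one w) (gw_inv hG hw)
    (fun g hg u => gw_pos hG hg u) (by rw [gw_sum]; exact heul 1) (by
      intro g _
      rw [gw_sum]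
      unfold gw
      split_ifs with h
      · exact hadm 1 g h
      · exact Nat.zero_le _)
  refine ⟨C, hC, ?_⟩
  intro e
  induction e using Sym2.ind with
  | _ u v =>
    intro h
    rw [SimpleGraph.mem_edgeSet] at h
    rw [countP_eq C hC h.ne, hC2 u v h, gw_adj hG hw h]

open scoped Classical in
/-- the edge formulation, oriented -/
theorem final_dcov (w : Sym2 Γ → ℕ) (hG : ∀ g x y : Γ, G.Adj x y → G.Adj (g * x) (g * y))
    (hw : ∀ g x y : Γ, G.Adj x y → w s(g * x, g * y) = w s(x, y))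
    (hadm : ∀ x y : Γ, G.Adj x y →
      2 * w s(x, y) ≤ ∑ z ∈ univ.filter (fun z => G.Adj x z), w s(x, z)) :
    ∃ C : List (Σ v : Γ, G.Walk v v), (∀ c ∈ C, c.2.IsCycle) ∧
      ∀ u v : Γ, G.Adj u v →
        (C.map (fun c => c.2.darts.countP (fun d => decide (d.toProd = (u, v))))).sum
          = w s(u, v) := by
  obtain ⟨C, hC, hC2⟩ := dcov_all G _ (gw G w) rfl (gw_one w) (gw_inv hG hw)
    (fun g hg u => gw_pos hG hg u) (by
      intro g _
      rw [gw_sum]
      unfold gw
      split_ifs with h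
      · exact hadm 1 g h
      · exact Nat.zero_le _)
  refine ⟨C, hC, ?_⟩
  intro u v h
  have h1 := hC2 u v h
  rw [gw_adj hG hw h] at h1
  rw [← h1]
  unfold tot dc
  simp only [List.countP_eq_length_filter]

end Pool.Agent.V1121.FC
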