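import Pool.Agent.V1121.FC.Basic
import Pool.Agent.V1121.OC.Piece

set_option autoImplicit false
set_option linter.unusedSimpArgs false
set_option linter.unusedSectionVars false

/-!
Faithful circuit covers of Cayley graphs with translation invariant weights.
-/

namespace Pool.Agent.V1121.FC

open Finset Pool.Agent.TH505.OCDC Subgroup

variable {Γ : Type} [Group Γ] [Fintype Γ] {G : SimpleGraph Γ}

/-- an involution twice and another generator once -/
lemma cov_inv_two {t x : Γ} (ht : t⁻¹ = t) (hx : x ≠ x⁻¹)
    (hadj : ∀ u, G.Adj u (u * t) ∧ G.Adj u (u * x)) :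
    Cov G (fun g => 2 * ind (g = t) + (ind (g = x) + ind (g = x⁻¹))) := by
  classical
  have htt : t * t = 1 := by
    nth_rewrite 1 [← ht]; exact inv_mul_cancel t
  have hxt : (t * x)⁻¹ = x⁻¹ * t := by rw [mul_inv_rev, ht]
  by_cases h : t ∈ zpowers (t * x)
  · have hcomm : t * x = x * t := by
      obtain ⟨n, hn⟩ := mem_zpowers_iff.mp h
      have h2 : Commute ((t * x) ^ n) (t * x) := (Commute.refl (t * x)).zpow_left n
      rw [hn] at h2
      have h3 := h2.eq
      have h4 : t * (t * x) = t * (x * t) := by rw [h3, mul_assoc]
      exact mul_left_cancel h4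
    have hsq : ∀ y ∈ zpowers t, y⁻¹ = y := by
      intro y hy
      obtain ⟨n, rfl⟩ := mem_zpowers_iff.mp hy
      rw [← inv_zpow, ht]
    refine cov_three ht hx hadj (fun v => (v : Γ ⧸ zpowers t)) ?_ ?_
    · intro v hv
      have h1 := QuotientGroup.eq.mp hv
      rw [inv_mul_cancel_left] at h1
      have := hsq _ h1
      rw [inv_inv] at this
      exact hx this
    · intro v
      left
      constructor
      · apply QuotientGroup.eq.mpr
        rw [mul_inv_rev, mul_assoc, inv_mul_cancel, mul_one]
        exact inv_mem (mem_zpowers t)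
      · apply QuotientGroup.eq.mpr
        have e : (v * t * x⁻¹)⁻¹ * (v * x⁻¹) = t⁻¹ := by
          have : (v * t * x⁻¹)⁻¹ * (v * x⁻¹) = x * t⁻¹ * x⁻¹ := by group
          rw [this, ht, ← hcomm]; group
        rw [e]
        exact inv_mem (mem_zpowers t)
  · refine cov_three ht hx hadj (fun v => ((v * t : Γ) : Γ ⧸ zpowers (t * x))) ?_ ?_
    · intro v hv
      have h1 := QuotientGroup.eq.mp hv
      have e : (v * t)⁻¹ * (v * x⁻¹ * t) = t * (t * x)⁻¹ := by
        rw [hxt]
        have : (v * t)⁻¹ * (v * x⁻¹ * t) = t⁻¹ * x⁻¹ * t := by group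
        rw [this, ht]; group
      rw [e] at h1
      exact h ((mul_mem_cancel_right (inv_mem (mem_zpowers (t * x)))).mp h1)
    · intro v
      right
      constructor
      · apply QuotientGroup.eq.mpr
        have e : (v * t * t)⁻¹ * (v * x⁻¹ * t) = (t * x)⁻¹ := by
          rw [hxt, mul_assoc, htt]; group
        rw [e]; exact inv_mem (mem_zpowers _)
      · apply QuotientGroup.eq.mpr
        have e : (v * t * x⁻¹ * t)⁻¹ * (v * t) = t * x := by
          have : (v * t * x⁻¹ * t)⁻¹ * (v * t) = t⁻¹ * x := by group
          rw [this, ht]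
        rw [e]; exact mem_zpowers _

lemma sum_ind_one (a : Γ) : ∑ g : Γ, ind (g = a) = 1 := by
  have := sum_ind_eq (Γ := Γ) a True
  simp only [and_true] at this
  rw [this, ind_pos trivial]

lemma ind_le {P : Prop} {n : ℕ} (h : P → 0 < n) : ind P ≤ n := by
  by_cases hP : P
  · rw [ind_pos hP]; exact h hP
  · rw [ind_neg hP]; exact Nat.zero_le _

/-- Every symmetric weight with even sum in which no involution has more than half of the total
weight has a faithful circuit cover. -/
theorem cov_all (G : SimpleGraph Γ) : ∀ (n : ℕ) (f : Γ → ℕ), ∑ g, f g = n → f 1 = 0 →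
    (∀ g, f g⁻¹ = f g) → (∀ g, 0 < f g → ∀ u, G.Adj u (u * g)) → Even n →
    (∀ g, g⁻¹ = g → 2 * f g ≤ n) → Cov G f := by
  classical
  intro n
  induction n using Nat.strong_induction_on with
  | _ n ih =>
    intro f hsum h1 hinv hadj hev hmax
    have step : ∀ (p : Γ → ℕ) (m : ℕ), Cov G p → (∀ g, p g ≤ f g) → (∀ g, p g⁻¹ = p g) →
        ∑ g, p g = m → 0 < m → Even m → (∀ g, g⁻¹ = g → 2 * (f g - p g) ≤ n - m) → Cov G f := by
      intro p m hp hle hpinv hpsum hm hmev hpmax
      have hmn : m ≤ n := by
        rw [← hpsum, ← hsum]; exact Finset.sum_le_sum (fun g _ => hle g)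
      have hs : ∑ g, (f g - p g) = n - m := by
        have : ∑ g, (f g - p g) + ∑ g, p g = ∑ g, f g := by
          rw [← Finset.sum_add_distrib]
          exact Finset.sum_congr rfl (fun g _ => Nat.sub_add_cancel (hle g))
        omega
      have h2 := ih (n - m) (by omega) (fun g => f g - p g) hs (by simp [h1])
        (fun g => by simp only [hinv, hpinv]) (fun g hg u => hadj g (by omega) u)
        ((Nat.even_sub hmn).mpr ⟨fun _ => hmev, fun _ => hev⟩) hpmax
      exact (h2.add hp).congr (fun g => (Nat.sub_add_cancel (hle g)).symm)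
    by_cases hn : n = 0
    · subst hn
      have : ∀ g, f g = 0 := fun g => (Finset.sum_eq_zero_iff.mp hsum) g (mem_univ g)
      exact (Cov.zero G).congr this
    by_cases hx : ∃ x, 0 < f x ∧ x ≠ x⁻¹
    · obtain ⟨x, hfx, hx⟩ := hx
      have hfx' : 0 < f x⁻¹ := by rw [hinv]; exact hfx
      by_cases ht : ∃ t, t⁻¹ = t ∧ n < 2 * f t + 2
      · obtain ⟨t, ht, hft⟩ := ht
        have htn := hmax t ht
        have hft2 : 2 * f t = n := by
          obtain ⟨k, hk⟩ := hev
          omega
        have htx : t ≠ x := by rintro rfl; exact hx ht.symm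
        have htx' : t ≠ x⁻¹ := by
          intro h; apply hx; rw [← h, ← ht, h, inv_inv]
        have hsum3 : f t + (f x + f x⁻¹) ≤ n := by
          rw [← hsum, ← Finset.sum_pair hx, ← Finset.sum_insert (by simp [htx, htx'])]
          exact Finset.sum_le_sum_of_subset (Finset.subset_univ _)
        refine step _ 4 (cov_inv_two ht hx (fun u => ⟨hadj t (by omega) u, hadj x hfx u⟩)) ?_ ?_ ?_
          (by norm_num) ⟨2, rfl⟩ ?_
        · intro g
          by_cases hg : g = t
          · subst hg
            rw [ind_pos rfl, ind_neg htx, ind_neg htx']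
            omega
          · rw [ind_neg hg]
            by_cases hgx : g = x
            · subst hgx
              rw [ind_pos rfl, ind_neg hx]; omega
            · rw [ind_neg hgx]
              by_cases hgx' : g = x⁻¹
              · rw [hgx', ind_pos rfl]; omega
              · rw [ind_neg hgx']; omega
        · intro g
          have e1 : (g⁻¹ = t) ↔ (g = t) := by
            constructor
            · intro h; rw [← ht, ← h, inv_inv]
            · intro h; rw [h, ht]
          have e2 : (g⁻¹ = x) ↔ (g = x⁻¹) := inv_eq_iff_eq_inv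
          have e3 : (g⁻¹ = x⁻¹) ↔ (g = x) := inv_inj
          rw [ind_congr e1, ind_congr e2, ind_congr e3]
          ring
        · rw [Finset.sum_add_distrib, Finset.sum_add_distrib, ← Finset.mul_sum, sum_ind_one,
            sum_ind_one, sum_ind_one]
          norm_num
        · intro g hg
          by_cases hgt : g = t
          · subst hgt
            rw [ind_pos rfl, ind_neg htx, ind_neg htx']
            omega
          · have hgx : g ≠ x := by rintro rfl; exact hx hg.symm
            have hgx' : g ≠ x⁻¹ := by
              intro h; apply hx; rw [← h, ← hg, h, inv_inv]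
            rw [ind_neg hgt, ind_neg hgx, ind_neg hgx']
            have hsum4 : f g + (f t + (f x + f x⁻¹)) ≤ n := by
              rw [← hsum, ← Finset.sum_pair hx, ← Finset.sum_insert (by simp [htx, htx']),
                ← Finset.sum_insert (by simp [hgt, hgx, hgx'])]
              exact Finset.sum_le_sum_of_subset (Finset.subset_univ _)
            omega
      · push Not at ht
        have hsum2 : f x + f x⁻¹ ≤ n := by
          rw [← hsum, ← Finset.sum_pair hx]
          exact Finset.sum_le_sum_of_subset (Finset.subset_univ _)
        refine step _ 2 (cov_two hx (fun u => ⟨hadj x hfx u, hadj x⁻¹ hfx' u⟩)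
          (Or.inl ⟨rfl, inv_inv x⟩)) ?_ ?_ ?_ (by norm_num) ⟨1, rfl⟩ ?_
        · intro g
          by_cases hgx : g = x
          · subst hgx
            rw [ind_pos rfl, ind_neg hx]; omega
          · rw [ind_neg hgx]
            by_cases hgx' : g = x⁻¹
            · rw [hgx', ind_pos rfl]; omega
            · rw [ind_neg hgx']; omega
        · intro g
          have e2 : (g⁻¹ = x) ↔ (g = x⁻¹) := inv_eq_iff_eq_inv
          have e3 : (g⁻¹ = x⁻¹) ↔ (g = x) := inv_inj
          rw [ind_congr e2, ind_congr e3]
          ring
        · rw [Finset.sum_add_distrib, sum_ind_one, sum_ind_one]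
        · intro g hg
          have := ht g hg
          omega
    · push Not at hx
      have hne : (univ : Finset Γ).Nonempty := ⟨1, mem_univ 1⟩
      obtain ⟨t, -, htmax⟩ := Finset.exists_max_image univ f hne
      have htpos : 0 < f t := by
        by_contra h0
        apply hn
        rw [← hsum]
        exact Finset.sum_eq_zero (fun g _ => by have := htmax g (mem_univ g); omega)
      have ht : t⁻¹ = t := (hx t htpos).symm
      have htn := hmax t ht
      obtain ⟨s, hst, hspos⟩ : ∃ s, s ≠ t ∧ 0 < f s := by
        by_contra hcon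
        push Not at hcon
        have : ∑ g, f g = f t := Finset.sum_eq_single t (fun g _ hg => by
          have := hcon g hg; omega) (fun h => absurd (mem_univ t) h)
        omega
      have hs : s⁻¹ = s := (hx s hspos).symm
      have hinv2 : ∀ a : Γ, a⁻¹ = a → ∀ g : Γ, (g⁻¹ = a) ↔ (g = a) := by
        intro a ha g
        constructor
        · intro h; rw [← ha, ← h, inv_inv]
        · intro h; rw [h, ha]
      refine step _ 2 (cov_two hst (fun u => ⟨hadj s hspos u, hadj t htpos u⟩)
          (Or.inr ⟨hs, ht⟩)) ?_ ?_ ?_ (by norm_num) ⟨1, rfl⟩ ?_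
      · intro g
        by_cases hgs : g = s
        · rw [hgs, ind_pos rfl, ind_neg hst]; omega
        · rw [ind_neg hgs]
          by_cases hgt : g = t
          · rw [hgt, ind_pos rfl]; omega
          · rw [ind_neg hgt]; omega
      · intro g
        rw [ind_congr (hinv2 s hs g), ind_congr (hinv2 t ht g)]
      · rw [Finset.sum_add_distrib, sum_ind_one, sum_ind_one]
      · intro g hg
        by_cases hgs : g = s
        · rw [hgs, ind_pos rfl, ind_neg hst]
          have := hmax s hs
          omega
        · by_cases hgt : g = t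
          · rw [hgt, ind_pos rfl, ind_neg (Ne.symm hst)]
            omega
          · rw [ind_neg hgs, ind_neg hgt]
            have hsum3 : f g + (f s + f t) ≤ n := by
              rw [← hsum, ← Finset.sum_pair hst, ← Finset.sum_insert (by simp [hgs, hgt])]
              exact Finset.sum_le_sum_of_subset (Finset.subset_univ _)
            have := htmax g (mem_univ g)
            obtain ⟨k, hk⟩ := hev
            omega

end Pool.Agent.V1121.FC
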