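import Pool.Agent.V1121.FC.Main
import Pool.Agent.V1121.OC.Main

set_option autoImplicit false
set_option linter.unusedSimpArgs false
set_option linter.unusedSectionVars false

/-!
Oriented circuit covers of Cayley graphs with translation invariant weights.
-/

namespace Pool.Agent.V1121.FC

open Finset Pool.Agent.TH505.OCDC Subgroup Pool.Agent.V1121.OC

variable {Γ : Type} [Group Γ] [Fintype Γ] {G : SimpleGraph Γ}

/-- every edge `u v` is traversed `f (u⁻¹ v)` times in each direction -/
def DCov (G : SimpleGraph Γ) (f : Γ → ℕ) : Prop :=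
  ∃ C : List (Σ v : Γ, G.Walk v v), (∀ c ∈ C, c.2.IsCycle) ∧
    ∀ u v, G.Adj u v → tot C u v = f (u⁻¹ * v)

lemma DCov.add {f g : Γ → ℕ} (hf : DCov G f) (hg : DCov G g) :
    DCov G (fun x => f x + g x) := by
  obtain ⟨C, hC, hC2⟩ := hf
  obtain ⟨D, hD, hD2⟩ := hg
  refine ⟨C ++ D, ?_, ?_⟩
  · intro c hc
    rcases List.mem_append.mp hc with hc | hc
    · exact hC c hc
    · exact hD c hc
  · intro u v h
    rw [tot_append, hC2 u v h, hD2 u v h]

lemma DCov.congr {f g : Γ → ℕ} (hf : DCov G f) (h : ∀ x, g x = f x) : DCov G g := by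
  have : g = f := funext h
  rw [this]; exact hf

lemma dc_reverse {V : Type} {G : SimpleGraph V} {x y : V} (p : G.Walk x y) (u v : V) :
    dc p.reverse u v = dc p v u := by
  classical
  unfold dc
  rw [SimpleGraph.Walk.darts_reverse, List.filter_reverse, List.length_reverse, List.filter_map,
    List.length_map]
  congr 1
  apply List.filter_congr
  intro d _
  simp only [Function.comp, decide_eq_decide]
  constructor
  · intro h
    have h1 : d.symm.toProd.swap = (v, u) := by rw [h]; rfl
    simpa using h1
  · intro h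
    have h1 : d.toProd.swap = (u, v) := by rw [h]; rfl
    simpa using h1

/-- the list of the reversed circuits -/
def rev {V : Type} {G : SimpleGraph V} (C : List (Σ v : V, G.Walk v v)) :
    List (Σ v : V, G.Walk v v) := C.map (fun c => ⟨c.1, c.2.reverse⟩)

lemma tot_rev {V : Type} {G : SimpleGraph V} (C : List (Σ v : V, G.Walk v v)) (u v : V) :
    tot (rev C) u v = tot C v u := by
  induction C with
  | nil => rfl
  | cons c C ih =>
    unfold rev at *
    rw [List.map_cons, tot_cons, tot_cons, ih, dc_reverse]

/-- a faithful cover together with its reversal -/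
lemma Cov.dcov {f : Γ → ℕ} (hf : Cov G f) : DCov G f := by
  obtain ⟨C, hC, hC2⟩ := hf
  refine ⟨C ++ rev C, ?_, ?_⟩
  · intro c hc
    rcases List.mem_append.mp hc with hc | hc
    · exact hC c hc
    · obtain ⟨d, hd, rfl⟩ := List.mem_map.mp hc
      exact (hC d hd).reverse
  · intro u v h
    rw [tot_append, tot_rev]
    exact hC2 u v h

lemma good_dcov {S : Set Γ} (hS : Good S) (hadj : ∀ g ∈ S, ∀ u, G.Adj u (u * g)) :
    DCov G (fun g => ind (g ∈ S)) := by
  classical
  obtain ⟨K, ⟨c⟩⟩ := hS
  have hadj' : ∀ u v, u⁻¹ * v ∈ S → G.Adj u v := by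
    intro u v h
    have := hadj _ h u
    rwa [mul_inv_cancel_left] at this
  have main : ∀ T : Finset K, ∃ C : List (Σ v : Γ, G.Walk v v), (∀ c ∈ C, c.2.IsCycle) ∧
      ∀ u v, tot C u v = ind (u⁻¹ * v ∈ S ∧ c.col u (u⁻¹ * v) ∈ T) := by
    intro T
    induction T using Finset.induction_on with
    | empty =>
      refine ⟨[], by simp, fun u v => ?_⟩
      rw [tot_nil, ind_neg (fun h => by simpa using h.2)]
    | insert k T hk ih =>
      obtain ⟨C, hC, hC2⟩ := ih
      obtain ⟨D, hD, hD2⟩ := directed_decomp (G := G) _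
        (fun u v => u⁻¹ * v ∈ S ∧ c.col u (u⁻¹ * v) = k) rfl (fun u v h => hadj' u v h.1) (by
          rintro u v ⟨h1, h2⟩ ⟨h3, h4⟩
          have := c.anti u _ h1
          have e1 : u * (u⁻¹ * v) = v := by group
          have e2 : (u⁻¹ * v)⁻¹ = v⁻¹ * u := by group
          rw [e1, e2, h2, h4] at this
          exact this rfl) (fun v => c.balance v k)
      refine ⟨D ++ C, ?_, ?_⟩
      · intro c hc
        rcases List.mem_append.mp hc with hc | hc
        · exact hD c hc
        · exact hC c hc
      · intro u v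
        rw [tot_append, hC2, hD2, ← ind_or]
        · apply ind_congr
          rw [Finset.mem_insert]
          tauto
        · rintro ⟨⟨-, h1⟩, -, h2⟩
          rw [h1] at h2; exact hk h2
  obtain ⟨C, hC, hC2⟩ := main ((univ : Finset (Γ × Γ)).image (fun p => c.col p.1 (p.1⁻¹ * p.2)))
  refine ⟨C, hC, fun u v huv => ?_⟩
  rw [hC2]
  apply ind_congr
  constructor
  · exact fun h => h.1
  · exact fun h => ⟨h, Finset.mem_image.mpr ⟨(u, v), mem_univ _, rfl⟩⟩

/-- **Oriented covers with invariant weights.** -/
theorem dcov_all (G : SimpleGraph Γ) (n : ℕ) (f : Γ → ℕ) (hsum : ∑ g, f g = n) (h1 : f 1 = 0)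
    (hinv : ∀ g, f g⁻¹ = f g) (hadj : ∀ g, 0 < f g → ∀ u, G.Adj u (u * g))
    (hmax : ∀ g, g⁻¹ = g → 2 * f g ≤ n) : DCov G f := by
  classical
  by_cases hev : Even n
  · exact (cov_all G n f hsum h1 hinv hadj hev hmax).dcov
  have hodd : Odd n := Nat.not_even_iff_odd.mp hev
  have step : ∀ S : Finset Γ, S.card = 3 → (∀ g ∈ S, g⁻¹ ∈ S) → (∀ g ∈ S, 0 < f g) →
      (∀ g, g⁻¹ = g → 2 * (f g - ind (g ∈ S)) ≤ n - 3) → DCov G f := by
    intro S hS hsymm hpos hmax'
    have hle : ∀ g, ind (g ∈ S) ≤ f g := fun g => ind_le (hpos g)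
    have hp : ∑ g, ind (g ∈ S) = 3 := by
      have : ∀ g, ind (g ∈ S) = if g ∈ S then 1 else 0 := by
        intro g
        by_cases h : g ∈ S
        · rw [ind_pos h, if_pos h]
        · rw [ind_neg h, if_neg h]
      rw [Finset.sum_congr rfl (fun g _ => this g), Finset.sum_ite_mem, Finset.univ_inter]
      simp [hS]
    have hn3 : 3 ≤ n := by
      rw [← hp, ← hsum]; exact Finset.sum_le_sum (fun g _ => hle g)
    have hs : ∑ g, (f g - ind (g ∈ S)) = n - 3 := by
      have : ∑ g, (f g - ind (g ∈ S)) + ∑ g, ind (g ∈ S) = ∑ g, f g := by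
        rw [← Finset.sum_add_distrib]
        exact Finset.sum_congr rfl (fun g _ => Nat.sub_add_cancel (hle g))
      omega
    have h2 := (cov_all G (n - 3) (fun g => f g - ind (g ∈ S)) hs (by simp [h1])
        (fun g => by
          have e : (g⁻¹ ∈ S) ↔ (g ∈ S) :=
            ⟨fun h => by have := hsymm _ h; rwa [inv_inv] at this, hsymm g⟩
          simp only [hinv, ind_congr e]) (fun g hg u => hadj g (by omega) u)
        (by
          obtain ⟨k, hk⟩ := hodd
          exact ⟨k - 1, by omega⟩) hmax').dcov
    have hgood : Good (S : Set Γ) := by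
      refine good_all 3 (S : Set Γ) ?_ (by norm_num) ?_ ?_
      · rw [Set.ncard_coe_finset, hS]
      · intro h
        have := hpos 1 (Finset.mem_coe.mp h)
        omega
      · intro g hg; exact Finset.mem_coe.mpr (hsymm g (Finset.mem_coe.mp hg))
    have h3 := good_dcov (G := G) hgood (fun g hg => hadj g (hpos g (Finset.mem_coe.mp hg)))
    refine (h2.add h3).congr (fun g => ?_)
    simp only [Finset.mem_coe]
    exact (Nat.sub_add_cancel (hle g)).symm
  -- an involution of positive weight exists
  have hex : ∃ t, t⁻¹ = t ∧ 0 < f t := by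
    by_contra hcon
    push Not at hcon
    apply hev
    rw [← hsum]
    have hs : ∀ g, f g = if g⁻¹ = g then 0 else f g := by
      intro g
      by_cases h : g⁻¹ = g
      · rw [if_pos h]; have := hcon g h; omega
      · rw [if_neg h]
    -- pair up `g` and `g⁻¹`
    have h2 : ((∑ g, f g : ℕ) : ZMod 2) = 0 := by
      rw [Nat.cast_sum]
      refine Finset.sum_involution (fun g _ => g⁻¹) ?_ ?_ ?_ ?_
      · intro g _
        rw [hinv, ← two_mul]
        have : (2 : ZMod 2) = 0 := rfl
        rw [this, zero_mul]
      · intro g _ hg h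
        have := hcon g h
        apply hg
        have h0 : f g = 0 := by omega
        rw [h0, Nat.cast_zero]
      · intro g _; exact mem_univ _
      · intro g _; exact inv_inv g
    exact (ZMod.natCast_eq_zero_iff_even).mp h2
  have hne : ((univ : Finset Γ).filter (fun g => g⁻¹ = g)).Nonempty := ⟨1, by simp⟩
  obtain ⟨t, ht, htmax⟩ := Finset.exists_max_image _ f hne
  have ht : t⁻¹ = t := (Finset.mem_filter.mp ht).2
  have htmax : ∀ g, g⁻¹ = g → f g ≤ f t := fun g hg =>
    htmax g (Finset.mem_filter.mpr ⟨mem_univ _, hg⟩)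
  have htpos : 0 < f t := by
    obtain ⟨s, hs, hs2⟩ := hex
    have := htmax s hs
    omega
  have htn := hmax t ht
  have hnodd : 2 * f t + 1 ≤ n := by
    obtain ⟨k, hk⟩ := hodd
    omega
  by_cases hx : ∃ x, 0 < f x ∧ x ≠ x⁻¹
  · obtain ⟨x, hfx, hx⟩ := hx
    have hfx' : 0 < f x⁻¹ := by rw [hinv]; exact hfx
    have htx : t ≠ x := by rintro rfl; exact hx ht.symm
    have htx' : t ≠ x⁻¹ := by
      intro h; apply hx; rw [← h, ← ht, h, inv_inv]
    refine step {t, x, x⁻¹} ?_ ?_ ?_ ?_
    · rw [Finset.card_insert_of_notMem (by simp [htx, htx']), Finset.card_pair hx]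
    · intro g hg
      simp only [Finset.mem_insert, Finset.mem_singleton] at hg ⊢
      rcases hg with rfl | rfl | rfl
      · left; exact ht
      · right; right; rfl
      · right; left; exact inv_inv x
    · intro g hg
      simp only [Finset.mem_insert, Finset.mem_singleton] at hg
      rcases hg with rfl | rfl | rfl
      · exact htpos
      · exact hfx
      · exact hfx'
    · intro g hg
      by_cases hgt : g = t
      · rw [hgt, ind_pos (by simp)]
        omega
      · have hgx : g ≠ x := by rintro rfl; exact hx hg.symm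
        have hgx' : g ≠ x⁻¹ := by
          intro h; apply hx; rw [← h, ← hg, h, inv_inv]
        rw [ind_neg (by simp [hgt, hgx, hgx'])]
        have hsum4 : f g + (f t + (f x + f x⁻¹)) ≤ n := by
          rw [← hsum, ← Finset.sum_pair hx, ← Finset.sum_insert (by simp [htx, htx']),
            ← Finset.sum_insert (by simp [hgt, hgx, hgx'])]
          exact Finset.sum_le_sum_of_subset (Finset.subset_univ _)
        have := htmax g hg
        obtain ⟨k, hk⟩ := hodd
        omega
  · push Not at hx
    have hx' : ∀ g, 0 < f g → g⁻¹ = g := fun g hg => (hx g hg).symm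
    have hne2 : ((univ : Finset Γ).erase t).Nonempty := ⟨1, by
      rw [Finset.mem_erase]
      refine ⟨?_, mem_univ _⟩
      rintro rfl
      omega⟩
    obtain ⟨s, hs, hsmax⟩ := Finset.exists_max_image _ f hne2
    have hst : s ≠ t := (Finset.mem_erase.mp hs).1
    have hsmax : ∀ g, g ≠ t → f g ≤ f s := fun g hg =>
      hsmax g (Finset.mem_erase.mpr ⟨hg, mem_univ _⟩)
    have hspos : 0 < f s := by
      by_contra h0
      have : ∑ g, f g = f t := Finset.sum_eq_single t (fun g _ hg => by
        have := hsmax g hg; omega) (fun h => absurd (mem_univ t) h)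
      omega
    have hsi := hx' s hspos
    obtain ⟨r, hrt, hrs, hrpos⟩ : ∃ r, r ≠ t ∧ r ≠ s ∧ 0 < f r := by
      by_contra hcon
      push Not at hcon
      have h2 : ∑ g, f g = ∑ g ∈ {s, t}, f g := by
        symm
        apply Finset.sum_subset (Finset.subset_univ _)
        intro g _ hg
        simp only [Finset.mem_insert, Finset.mem_singleton, not_or] at hg
        have := hcon g hg.2 hg.1
        omega
      rw [hsum, Finset.sum_pair hst] at h2
      have := htmax s hsi
      omega
    have hri := hx' r hrpos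
    have hsum4 : ∀ g, g ≠ r → g ≠ s → g ≠ t → f g + (f r + (f s + f t)) ≤ n := by
      intro g h1 h2 h3
      rw [← hsum, ← Finset.sum_pair hst, ← Finset.sum_insert (by simp [hrt, hrs]),
            ← Finset.sum_insert (by simp [h1, h2, h3])]
      exact Finset.sum_le_sum_of_subset (Finset.subset_univ _)
    have hsum3 : f r + (f s + f t) ≤ n := by
      rw [← hsum, ← Finset.sum_pair hst, ← Finset.sum_insert (by simp [hrt, hrs])]
      exact Finset.sum_le_sum_of_subset (Finset.subset_univ _)
    refine step {r, s, t} ?_ ?_ ?_ ?_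
    · rw [Finset.card_insert_of_notMem (by simp [hrt, hrs]), Finset.card_pair hst]
    · intro g hg
      simp only [Finset.mem_insert, Finset.mem_singleton] at hg ⊢
      rcases hg with rfl | rfl | rfl
      · left; exact hri
      · right; left; exact hsi
      · right; right; exact ht
    · intro g hg
      simp only [Finset.mem_insert, Finset.mem_singleton] at hg
      rcases hg with rfl | rfl | rfl
      · exact hrpos
      · exact hspos
      · exact htpos
    · intro g hg
      by_cases hgS : g ∈ ({r, s, t} : Finset Γ)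
      · rw [ind_pos hgS]
        have := hmax g hg
        obtain ⟨k, hk⟩ := hodd
        omega
      · rw [ind_neg hgS]
        simp only [Finset.mem_insert, Finset.mem_singleton, not_or] at hgS
        have h4 := hsum4 g hgS.1 hgS.2.1 hgS.2.2
        have h5 := hsmax g hgS.2.2
        have h6 := htmax g hg
        obtain ⟨k, hk⟩ := hodd
        omega

end Pool.Agent.V1121.FC
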